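import Pool.Agent.Q225.BKC.LAW
import Pool.Agent.Q283.GM.W49

/-! The matrix of the class and the criterion of the `2`-descent are the same. -/

set_option autoImplicit false
set_option linter.unusedSectionVars false

open scoped Classical

namespace Pool.Agent.Q274.TP

open Finset Pool.Agent.Q274.BKC
open Pool.Agent.Q225.BKC (nr_eq nr_self res res_apply)
open Q283.GM (rk Kr mem_Kr)
open Q283.GW (ρ49 A49 CF)
open Q283.XF (nf)

theorem n4_nf (p : ℕ) : n4 7 p = nf p := by
  unfold n4 nf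
  simp only [Nat.cast_ofNat]

section
variable {D : ℕ} (hD : ∀ p ∈ D.primeFactors, p % 4 = 1)
include hD

theorem SP_iff (p : ℕ) : p ∈ SP 7 D ↔ p ∈ D.primeFactors ∧ ρ49.Φ.A p := by
  unfold SP
  rw [Finset.mem_filter]
  refine and_congr_right fun hp => ?_
  have hpp := Nat.prime_of_mem_primeFactors hp
  have h4 := hD p hp
  have : Fact p.Prime := ⟨hpp⟩
  have h7 : p ≠ 7 := by
    rintro rfl
    norm_num at h4
  rw [A49, Nat.cast_ofNat, Pool.Agent.Y687.sq_seven p h4 h7]
  exact ⟨fun h => ⟨hpp, h4, h⟩, fun h => h.2.2⟩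

/-- a row of the system -/
theorem rowA (x : ℕ → ZMod 2) (hx : ∀ p, ¬ (p ∈ D.primeFactors ∧ ρ49.Φ.A p) → x p = 0)
    (i : SP 7 D) :
    (R 7 D).mulVec (fun j => x j) i =
      ∑ r ∈ D.primeFactors, Pool.Agent.Y703.CQ.nr i r * (x r + x i) + nf i * x i := by
  have hi := (SP_iff hD i).1 i.2
  have e1 : ∑ r ∈ D.primeFactors, Pool.Agent.Y703.CQ.nr i r * (x r + x i) =
      ∑ r ∈ SP 7 D, nr i r * x r + (∑ r ∈ D.primeFactors, nr i r) * x i := by
    have hsub : SP 7 D ⊆ D.primeFactors := Finset.filter_subset _ _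
    have : ∑ r ∈ SP 7 D, nr i r * x r = ∑ r ∈ D.primeFactors, nr i r * x r := by
      refine Finset.sum_subset hsub fun r hr hr' => ?_
      rw [hx r (fun h => hr' ((SP_iff hD r).2 h)), mul_zero]
    rw [this, Finset.sum_mul, ← Finset.sum_add_distrib]
    refine Finset.sum_congr rfl fun r _ => ?_
    rw [← nr_eq]
    ring
  have e2 : ∑ r ∈ SP 7 D, nr i r * x r = ∑ j : SP 7 D, nr i j * x j :=
    (Finset.sum_coe_sort (SP 7 D) (fun r => nr i r * x r)).symm
  have e5 : ∑ r ∈ D.primeFactors, nr i r = ∑ r ∈ D.primeFactors.erase i, nr i r := by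
    rw [← Finset.add_sum_erase D.primeFactors (fun r => nr i r) hi.1, nr_self, zero_add]
  rw [e1, e2, e5]
  unfold Matrix.mulVec dotProduct
  rw [← Finset.add_sum_erase univ _ (Finset.mem_univ i),
    ← Finset.add_sum_erase univ (fun j : SP 7 D => nr i j * x j) (Finset.mem_univ i), nr_self,
    zero_mul, zero_add]
  have e3 : ∑ j ∈ univ.erase i, R 7 D i j * x j =
      ∑ j ∈ univ.erase i, nr i j * x j := by
    refine Finset.sum_congr rfl fun j hj => ?_
    have hne : i ≠ j := fun h => (Finset.mem_erase.1 hj).1 h.symm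
    congr 1
    unfold R
    rw [Matrix.of_apply, if_neg hne]
  rw [e3]
  have e4 : R 7 D i i = ∑ r ∈ D.primeFactors.erase i, nr i r + nf i := by
    unfold R
    rw [Matrix.of_apply, if_pos rfl, n4_nf]
  show R 7 D i i * x i + _ = _
  rw [e4]
  ring

/-- the kernel of the matrix -/
theorem ker_eq : (Kr ρ49.Φ nf D.primeFactors).map (res 7 D) = LinearMap.ker (R 7 D).mulVecLin := by
  ext v
  rw [Submodule.mem_map, LinearMap.mem_ker, Matrix.mulVecLin_apply]
  constructor
  · rintro ⟨x, hx, rfl⟩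
    obtain ⟨h1, h2⟩ := mem_Kr.1 hx
    funext i
    have hi := (SP_iff hD i).1 i.2
    exact (rowA hD x h1 i).trans (h2 i hi.1 hi.2)
  · intro hv
    set x : ℕ → ZMod 2 := fun p => if h : p ∈ SP 7 D then v ⟨p, h⟩ else 0 with hx
    have e : res 7 D x = v := by
      funext j
      rw [res_apply, hx]
      simp only [j.2, dite_true]
    have h0 : ∀ p, ¬ (p ∈ D.primeFactors ∧ ρ49.Φ.A p) → x p = 0 := by
      intro p hp
      rw [hx]
      exact dif_neg fun h => hp ((SP_iff hD p).1 h)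
    refine ⟨x, mem_Kr.2 ⟨h0, fun p hp ha => ?_⟩, e⟩
    have hpP : p ∈ SP 7 D := (SP_iff hD p).2 ⟨hp, ha⟩
    have h1 := rowA hD x h0 ⟨p, hpP⟩
    rw [← e] at hv
    have h2 := congrFun hv ⟨p, hpP⟩
    exact h1.symm.trans h2

theorem res_inj {x : ℕ → ZMod 2} (hx : x ∈ Kr ρ49.Φ nf D.primeFactors)
    (h : res 7 D x = 0) : x = 0 := by
  obtain ⟨h1, -⟩ := mem_Kr.1 hx
  funext p
  by_cases hp : p ∈ D.primeFactors ∧ ρ49.Φ.A p
  · exact congrFun h ⟨p, (SP_iff hD p).2 hp⟩
  · exact h1 p hp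

/-- the corank is the dimension of the kernel of the matrix -/
theorem corank_eq49 : corank 7 D = rk ρ49.Φ nf D.primeFactors := by
  unfold corank rk
  rw [← ker_eq hD]
  have hinj : Function.Injective ((res 7 D).domRestrict (Kr ρ49.Φ nf D.primeFactors)) := by
    rw [← LinearMap.ker_eq_bot, Submodule.eq_bot_iff]
    rintro ⟨x, hx⟩ h
    rw [LinearMap.mem_ker] at h
    exact Subtype.ext (res_inj hD hx h)
  have h2 : LinearMap.range ((res 7 D).domRestrict (Kr ρ49.Φ nf D.primeFactors)) =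
      (Kr ρ49.Φ nf D.primeFactors).map (res 7 D) := by
    rw [LinearMap.range_domRestrict]
  rw [← h2]
  exact (LinearEquiv.ofInjective _ hinj).finrank_eq.symm

end

/-- **the points of the twist** -/
theorem finite_points {D : ℕ} (hD : Cl 7 D) (h0 : corank 7 D = 0) : Q283.J2.RZ49 (D : ℤ) := by
  have h4 : ∀ p ∈ D.primeFactors, p % 4 = 1 := fun p hp =>
    (hD.one p (Nat.prime_of_mem_primeFactors hp) (Nat.dvd_of_mem_primeFactors hp)).1
  have hCF : CF D.primeFactors := fun p hp => ⟨Nat.prime_of_mem_primeFactors hp, h4 p hp⟩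
  have h1 := (Q283.GW.rz_CF hCF).2 (by rw [← corank_eq49 h4]; exact h0)
  rwa [Q283.GW.DD_CF hCF, Nat.prod_primeFactors_of_squarefree hD.sqf] at h1

end Pool.Agent.Q274.TP
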