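import Pool.Agent.Q274.BKL.Cv
import Pool.Agent.Q274.BKC.Tw

/-! L-functions of the CM forms of level 49 and of sums of quadratic characters. -/

set_option autoImplicit false

open Filter
open scoped Topology

namespace Pool.Agent.Q274.TP

open Pool.Agent.Q274.BKL Pool.Agent.Q274.BKC

/-- the quadratic character of `ℚ(√c)`, `c ≡ 1` modulo `4`, at the prime `p` -/
def chi (c : ℤ) (p : ℕ) : ℤ := if p = 2 then (if c % 8 = 1 then 1 else -1) else jacobiSym c p

/-- the Euler factor -/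
noncomputable def tf (c : ℤ) (i : ℕ) (s : ℂ) (p : ℕ) : ℂ :=
  1 - (chi c p * uu p (2 * i + 1) : ℤ) * (p : ℂ) ^ (-(s + i + 1)) +
    (if p = 7 then 0 else 1) * ((chi c p ^ 2 * p ^ (2 * i + 1) : ℤ) : ℂ) *
      ((p : ℂ) ^ (-(s + i + 1))) ^ 2

theorem Cl_mod {D : ℕ} (hD : Cl 7 D) : D % 8 = 1 := by
  have h := hD.cong
  have h1 : (16 : ℤ) ∣ 2 * (D : ℤ) + 5 - 7 := by exact_mod_cast h
  omega

theorem chi_pos {D : ℕ} (hD : Cl 7 D) {p : ℕ} (hp : p.Prime) : chi D p = jacobiSym p D := by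
  have h8 := Cl_mod hD
  unfold chi
  split_ifs with h1 h2
  · subst h1
    have hodd : Odd D := Nat.odd_iff.2 (by omega)
    have := jacobiSym.at_two hodd
    rw [Nat.cast_ofNat, this, ZMod.χ₈_nat_eq_if_mod_eight, if_neg (by omega), if_pos (by omega)]
  · exfalso
    apply h2
    omega
  · have hodd : Odd p := hp.odd_of_ne_two h1
    exact jacobiSym.quadratic_reciprocity_one_mod_four (by omega) hodd

theorem uu_odd {p : ℕ} (h : aa p = 0) (i : ℕ) : uu p (2 * i + 1) = 0 := by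
  induction i with
  | zero => exact h
  | succ n ih =>
    have e : 2 * (n + 1) + 1 = (2 * n + 1) + 2 := by ring
    rw [e, uu, h, ih, zero_mul, mul_zero, sub_zero]

theorem tf_pos {D : ℕ} (hD : Cl 7 D) (i : ℕ) (s : ℂ) {p : ℕ} (hp : p.Prime) :
    tf D i s p = ef D i s p := by
  unfold tf ef
  rw [chi_pos hD hp]

theorem aa_inert {p : ℕ} (hp : p.Prime) (hp2 : p ≠ 2) (hp7 : p ≠ 7) (h : ¬ IsSquare (-7 : ZMod p)) :
    aa p = 0 := by
  have : Fact p.Prime := ⟨hp⟩
  have h1 := (Pool.Agent.Y698.ap_inert hp hp2 hp7 h).1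
  unfold aa
  rw [card_Aff hp2]
  exact h1

theorem jac_seven {p : ℕ} (hp : p.Prime) (hp2 : p ≠ 2) (hp7 : p ≠ 7) :
    (IsSquare (-7 : ZMod p) → jacobiSym (-7) p = 1) ∧
      (¬ IsSquare (-7 : ZMod p) → jacobiSym (-7) p = -1) := by
  have : Fact p.Prime := ⟨hp⟩
  have h0 : (((-7 : ℤ) : ℤ) : ZMod p) ≠ 0 := by
    intro h
    have h1 := (ZMod.intCast_zmod_eq_zero_iff_dvd (-7) p).1 h
    have h2 : (p : ℤ) ∣ 7 := (dvd_neg).1 h1
    have h3 : p ∣ 7 := by exact_mod_cast h2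
    exact hp7 ((Nat.prime_dvd_prime_iff_eq hp (by norm_num)).1 h3)
  have e : (((-7 : ℤ) : ℤ) : ZMod p) = -7 := by push_cast; rfl
  rw [← jacobiSym.legendreSym.to_jacobiSym]
  constructor
  · intro h
    exact (legendreSym.eq_one_iff p h0).2 (by rwa [e])
  · intro h
    exact (legendreSym.eq_neg_one_iff p).2 (by rwa [e])

theorem tf_neg {D : ℕ} (hD : Cl 7 D) (i : ℕ) (s : ℂ) {p : ℕ} (hp : p.Prime) :
    tf (-7 * (D : ℤ)) i s p = tf D i s p := by
  have h8 := Cl_mod hD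
  by_cases h2 : p = 2
  · have e1 : chi (-7 * (D : ℤ)) p = 1 := by
      unfold chi
      rw [if_pos h2, if_pos (by omega)]
    have e2 : chi (D : ℤ) p = 1 := by
      unfold chi
      rw [if_pos h2, if_pos (by omega)]
    unfold tf
    rw [e1, e2]
  by_cases h7 : p = 7
  · subst h7
    unfold tf
    rw [uu_odd aa_seven]
    simp
  · have e1 : chi (-7 * (D : ℤ)) p = jacobiSym (-7) p * chi D p := by
      unfold chi
      rw [if_neg h2, if_neg h2, jacobiSym.mul_left]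
    obtain ⟨j1, j2⟩ := jac_seven hp h2 h7
    by_cases hsq : IsSquare (-7 : ZMod p)
    · unfold tf
      rw [e1, j1 hsq, one_mul]
    · unfold tf
      rw [e1, j2 hsq, uu_odd (aa_inert hp h2 h7 hsq), mul_zero, mul_zero]
      have e3 : (-1 * chi (D : ℤ) p) ^ 2 = chi (D : ℤ) p ^ 2 := by ring
      rw [e3]

/-- `D` or `-7 D` -/
def signed (b : Bool) (D : ℕ) : ℤ := if b then -7 * (D : ℤ) else D

theorem tf_signed {D : ℕ} (hD : Cl 7 D) (b : Bool) (i : ℕ) (s : ℂ) {p : ℕ} (hp : p.Prime) :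
    tf (signed b D) i s p = ef D i s p := by
  unfold signed
  split_ifs with h
  · rw [tf_neg hD i s hp, tf_pos hD i s hp]
  · exact tf_pos hD i s hp

/-- **the product of the L-functions** -/
theorem lfun {r : ℕ} (D : Fin r → ℕ) (b : Fin r → Bool) (hD : ∀ j, Cl 7 (D j))
    (h0 : ∀ j, corank 7 (D j) = 0) {i : ℕ} (hi : Even i) :
    ∃ F : ℂ → ℂ, (Differentiable ℂ F ∧ ∀ s : ℂ, 1 / 2 < s.re →
      HasProd (fun p : Nat.Primes => (∏ j, tf (signed (b j) (D j)) i s p)⁻¹) (F s)) ∧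
        analyticOrderAt F 0 = 0 := by
  choose F h1 h2 h3 using fun j => central_ep (hD j) (h0 j) hi
  refine ⟨fun s => ∏ j, F j s, ⟨?_, fun s hs => ?_⟩, ?_⟩
  · exact Differentiable.fun_finset_prod fun j _ => h1 j
  · have h4 : HasProd (fun p : Nat.Primes => ∏ j, (ef (D j) i s p)⁻¹) (∏ j, F j s) :=
      hasProd_prod fun j _ => h2 j s hs
    refine h4.congr_fun ?_
    intro p
    rw [← Finset.prod_inv_distrib]
    exact Finset.prod_congr rfl fun j _ => by rw [tf_signed (hD j) (b j) i s p.2]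
  · rw [AnalyticAt.analyticOrderAt_eq_zero
      ((Differentiable.fun_finset_prod fun j _ => h1 j).analyticAt 0)]
    exact Finset.prod_ne_zero_iff.2 fun j _ => h3 j

end Pool.Agent.Q274.TP
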